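import Pool.Agent.E8helper59.TS.Stm4

/-!
# Project TS, piece S_ZON: the area of a zonogon
-/

set_option autoImplicit false
open MeasureTheory Set Filter Topology
open scoped Pointwise ENNReal

namespace Pool.Agent.E8helper68.TS

open Pool.Agent.E8helper59.TS

/-- The set swept by `S` under the vertical translations by `t`, `0 ≤ t ≤ 1`. -/
def Sw (S : Set (ℝ × ℝ)) : Set (ℝ × ℝ) :=
  (fun q : (ℝ × ℝ) × ℝ => (q.1.1, q.1.2 + q.2)) '' (S ×ˢ Icc (0 : ℝ) 1)

theorem isCompact_Sw {S : Set (ℝ × ℝ)} (hc : IsCompact S) : IsCompact (Sw S) := by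
  unfold Sw
  apply (hc.prod isCompact_Icc).image
  fun_prop

theorem sweep (S : Set (ℝ × ℝ)) (hc : IsCompact S) (hv : Convex ℝ S) (l u : ℝ)
    (hI : ∀ p ∈ S, l ≤ p.1 ∧ p.1 ≤ u) :
    volume (Sw S) ≤ volume S + ENNReal.ofReal (u - l) := by
  have hT := (isCompact_Sw hc).measurableSet
  have hSm := hc.measurableSet
  rw [Measure.volume_eq_prod, Measure.prod_apply hT, Measure.prod_apply hSm]
  have key : ∀ x : ℝ, volume (Prod.mk x ⁻¹' Sw S) ≤
      volume (Prod.mk x ⁻¹' S) + (Icc l u).indicator (fun _ => (1 : ℝ≥0∞)) x := by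
    intro x
    rcases (Prod.mk x ⁻¹' S).eq_empty_or_nonempty with he | hne
    · have : Prod.mk x ⁻¹' Sw S = ∅ := by
        rw [eq_empty_iff_forall_notMem]
        rintro y ⟨q, ⟨hq1, hq2⟩, hq3⟩
        simp only [Prod.mk.injEq] at hq3
        have h1 : q.1.2 ∈ Prod.mk x ⁻¹' S := by
          rw [mem_preimage, ← hq3.1]
          exact hq1
        rw [he] at h1
        exact h1
      rw [this, measure_empty]
      exact zero_le
    · have hx : x ∈ Icc l u := by
        obtain ⟨y, hy⟩ := hne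
        exact hI _ hy
      rw [indicator_of_mem hx]
      have hcS : IsCompact (Prod.mk x ⁻¹' S) := by
        refine IsCompact.of_isClosed_subset (hc.image continuous_snd)
          (hc.isClosed.preimage (by fun_prop)) ?_
        intro y hy
        exact ⟨(x, y), hy, rfl⟩
      have hconv : Convex ℝ (Prod.mk x ⁻¹' S) := by
        intro y hy z hz s t hs ht hst
        have := hv hy hz hs ht hst
        rw [mem_preimage]
        have e : (x, s • y + t • z) = s • ((x, y) : ℝ × ℝ) + t • (x, z) := by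
          ext
          · simp [← add_mul, hst]
          · simp
        rw [e]
        exact this
      have hconn : IsConnected (Prod.mk x ⁻¹' S) := ⟨hne, hconv.isPreconnected⟩
      have hIcc := eq_Icc_of_connected_compact hconn hcS
      set a := sInf (Prod.mk x ⁻¹' S) with ha
      set b := sSup (Prod.mk x ⁻¹' S) with hb
      have hab : a ≤ b := by
        rw [hIcc] at hne
        exact nonempty_Icc.mp hne
      have hsub : Prod.mk x ⁻¹' Sw S ⊆ Icc a (b + 1) := by
        rintro y ⟨q, ⟨hq1, hq2⟩, hq3⟩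
        simp only [Prod.mk.injEq] at hq3
        have h1 : q.1.2 ∈ Prod.mk x ⁻¹' S := by
          rw [mem_preimage, ← hq3.1]
          exact hq1
        rw [hIcc] at h1
        rw [← hq3.2]
        have h2 : (0 : ℝ) ≤ q.2 ∧ q.2 ≤ 1 := hq2
        exact ⟨by linarith [h1.1], by linarith [h1.2]⟩
      calc volume (Prod.mk x ⁻¹' Sw S) ≤ volume (Icc a (b + 1)) := measure_mono hsub
        _ = ENNReal.ofReal (b - a) + 1 := by
          rw [Real.volume_Icc, show b + 1 - a = (b - a) + 1 by ring,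
            ENNReal.ofReal_add (by linarith) zero_le_one, ENNReal.ofReal_one]
        _ = volume (Prod.mk x ⁻¹' S) + 1 := by
          rw [hIcc, Real.volume_Icc]
  calc ∫⁻ x, volume (Prod.mk x ⁻¹' Sw S) ≤
      ∫⁻ x, (volume (Prod.mk x ⁻¹' S) + (Icc l u).indicator (fun _ => (1 : ℝ≥0∞)) x) :=
        lintegral_mono key
    _ = (∫⁻ x, volume (Prod.mk x ⁻¹' S)) + ∫⁻ x, (Icc l u).indicator (fun _ => (1 : ℝ≥0∞)) x := by
        rw [lintegral_add_right]
        exact measurable_const.indicator measurableSet_Icc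
    _ = (∫⁻ x, volume (Prod.mk x ⁻¹' S)) + ENNReal.ofReal (u - l) := by
        rw [lintegral_indicator measurableSet_Icc, setLIntegral_const, one_mul, Real.volume_Icc]

theorem Zon_image (n : ℕ) (a : Fin n → ℝ × ℝ) :
    Zon n a = (fun x : Fin n → ℝ => ∑ i, x i • a i) '' (Icc (0 : Fin n → ℝ) 1) := by
  ext p
  constructor
  · rintro ⟨x, hx, rfl⟩
    exact ⟨x, ⟨fun i => (hx i).1, fun i => (hx i).2⟩, rfl⟩
  · rintro ⟨x, hx, rfl⟩
    exact ⟨x, fun i => ⟨hx.1 i, hx.2 i⟩, rfl⟩

theorem compact_Zon (n : ℕ) (a : Fin n → ℝ × ℝ) : IsCompact (Zon n a) := by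
  rw [Zon_image]
  apply isCompact_Icc.image
  fun_prop

theorem convex_Zon (n : ℕ) (a : Fin n → ℝ × ℝ) : Convex ℝ (Zon n a) := by
  rintro p ⟨x, hx, rfl⟩ q ⟨y, hy, rfl⟩ s t hs ht hst
  refine ⟨fun i => s * x i + t * y i, fun i => ⟨?_, ?_⟩, ?_⟩
  · have := hx i; have := hy i
    nlinarith [mul_nonneg hs (hx i).1, mul_nonneg ht (hy i).1]
  · nlinarith [mul_le_mul_of_nonneg_left (hx i).2 hs, mul_le_mul_of_nonneg_left (hy i).2 ht]
  · rw [Finset.smul_sum, Finset.smul_sum, ← Finset.sum_add_distrib]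
    apply Finset.sum_congr rfl
    intro i _
    rw [add_smul, mul_smul, mul_smul]

/-- The linear map of determinant `1` that maps `v` to `(0, 1)`. -/
noncomputable def L (v : ℝ × ℝ) : ℝ × ℝ →ₗ[ℝ] ℝ × ℝ :=
  Matrix.toLin (Module.Basis.finTwoProd ℝ) (Module.Basis.finTwoProd ℝ)
    !![v.2, -v.1; v.1 / (v.1 ^ 2 + v.2 ^ 2), v.2 / (v.1 ^ 2 + v.2 ^ 2)]

theorem L_apply (v p : ℝ × ℝ) : L v p = (v.2 * p.1 + -v.1 * p.2,
    v.1 / (v.1 ^ 2 + v.2 ^ 2) * p.1 + v.2 / (v.1 ^ 2 + v.2 ^ 2) * p.2) :=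
  Matrix.toLin_finTwoProd_apply _ _ _ _ p

theorem det_L {v : ℝ × ℝ} (hv : v ≠ 0) : LinearMap.det (L v) = 1 := by
  have h : v.1 ^ 2 + v.2 ^ 2 ≠ 0 := by
    intro h
    apply hv
    ext
    · show v.1 = 0
      nlinarith [sq_nonneg v.1, sq_nonneg v.2]
    · show v.2 = 0
      nlinarith [sq_nonneg v.1, sq_nonneg v.2]
  unfold L
  rw [LinearMap.det_toLin, Matrix.det_fin_two_of]
  field_simp
  ring


theorem vol_L {v : ℝ × ℝ} (hv : v ≠ 0) (S : Set (ℝ × ℝ)) : volume (L v '' S) = volume S := by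
  rw [Measure.addHaar_image_linearMap, det_L hv]
  simp

/-- The step. -/
theorem step {n : ℕ} (a : Fin n → ℝ × ℝ) (v : ℝ × ℝ) (hv : v ≠ 0) (T : Set (ℝ × ℝ))
    (hT : ∀ p ∈ T, ∃ t : ℝ, 0 ≤ t ∧ t ≤ 1 ∧ p - t • v ∈ Zon n a) :
    volume T ≤ volume (Zon n a) +
      ENNReal.ofReal (∑ i, |(a i).1 * v.2 - (a i).2 * v.1|) := by
  have hr : v.1 ^ 2 + v.2 ^ 2 ≠ 0 := by
    intro h
    apply hv
    ext
    · show v.1 = 0
      nlinarith [sq_nonneg v.1, sq_nonneg v.2]
    · show v.2 = 0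
      nlinarith [sq_nonneg v.1, sq_nonneg v.2]
  have hLv : L v v = (0, 1) := by
    rw [L_apply]
    ext
    · show v.2 * v.1 + -v.1 * v.2 = 0
      ring
    · show v.1 / (v.1 ^ 2 + v.2 ^ 2) * v.1 + v.2 / (v.1 ^ 2 + v.2 ^ 2) * v.2 = 1
      field_simp
  set D : Fin n → ℝ := fun i => (a i).1 * v.2 - (a i).2 * v.1 with hD
  have h1 : L v '' T ⊆ Sw (L v '' Zon n a) := by
    rintro _ ⟨p, hp, rfl⟩
    obtain ⟨t, ht0, ht1, htZ⟩ := hT p hp
    refine ⟨(L v (p - t • v), t), ⟨⟨_, htZ, rfl⟩, ht0, ht1⟩, ?_⟩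
    rw [map_sub, map_smul, hLv]
    ext <;> simp
  have h2 := sweep (L v '' Zon n a)
    ((compact_Zon n a).image (LinearMap.continuous_of_finiteDimensional _))
    ((convex_Zon n a).linear_image _) (∑ i, min 0 (D i)) (∑ i, max 0 (D i)) (by
      rintro _ ⟨_, ⟨x, hx, rfl⟩, rfl⟩
      have e : (L v (∑ i, x i • a i)).1 = ∑ i, x i * D i := by
        rw [map_sum, Prod.fst_sum]
        apply Finset.sum_congr rfl
        intro i _
        rw [map_smul, L_apply, hD]
        simp only [Prod.smul_fst, smul_eq_mul]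
        ring
      rw [e]
      constructor
      · apply Finset.sum_le_sum
        intro i _
        rcases le_total 0 (D i) with h | h
        · rw [min_eq_left h]
          exact mul_nonneg (hx i).1 h
        · rw [min_eq_right h]
          nlinarith [(hx i).2]
      · apply Finset.sum_le_sum
        intro i _
        rcases le_total 0 (D i) with h | h
        · rw [max_eq_right h]
          nlinarith [(hx i).2]
        · rw [max_eq_left h]
          exact mul_nonpos_of_nonneg_of_nonpos (hx i).1 h)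
  rw [vol_L hv] at h2
  calc volume T = volume (L v '' T) := (vol_L hv T).symm
    _ ≤ volume (Sw (L v '' Zon n a)) := measure_mono h1
    _ ≤ _ := h2
    _ = _ := by
      congr 2
      rw [← Finset.sum_sub_distrib]
      apply Finset.sum_congr rfl
      intro i _
      rcases le_total 0 (D i) with h | h
      · rw [min_eq_left h, max_eq_right h, abs_of_nonneg h, sub_zero]
      · rw [min_eq_right h, max_eq_left h, abs_of_nonpos h, zero_sub]

/-- The sum. -/
noncomputable def Z (n : ℕ) (a : Fin n → ℝ × ℝ) : ℝ :=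
  ∑ i, ∑ j, if i < j then |(a i).1 * (a j).2 - (a i).2 * (a j).1| else 0

theorem Z_nonneg (n : ℕ) (a : Fin n → ℝ × ℝ) : 0 ≤ Z n a := by
  unfold Z
  apply Finset.sum_nonneg
  intro i _
  apply Finset.sum_nonneg
  intro j _
  split_ifs
  · exact abs_nonneg _
  · exact le_rfl

theorem Z_succ (n : ℕ) (a : Fin (n + 1) → ℝ × ℝ) : Z (n + 1) a =
    Z n (fun i => a i.castSucc) +
      ∑ i : Fin n, |(a i.castSucc).1 * (a (Fin.last n)).2 - (a i.castSucc).2 * (a (Fin.last n)).1| := by
  unfold Z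
  rw [Fin.sum_univ_castSucc]
  have h1 : (∑ j : Fin (n + 1), if Fin.last n < j then
      |(a (Fin.last n)).1 * (a j).2 - (a (Fin.last n)).2 * (a j).1| else 0) = 0 := by
    apply Finset.sum_eq_zero
    intro j _
    rw [if_neg (not_lt.mpr (Fin.le_last j))]
  rw [h1, add_zero, ← Finset.sum_add_distrib]
  apply Finset.sum_congr rfl
  intro i _
  rw [Fin.sum_univ_castSucc, if_pos (Fin.castSucc_lt_last i)]
  simp only [Fin.castSucc_lt_castSucc_iff]

theorem vol_Zon (n : ℕ) : ∀ a : Fin n → ℝ × ℝ, volume (Zon n a) ≤ ENNReal.ofReal (Z n a) := by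
  induction n with
  | zero =>
    intro a
    have : Zon 0 a ⊆ {0} := by
      rintro p ⟨x, -, rfl⟩
      simp
    exact (measure_mono this).trans (by simp)
  | succ n ih =>
    intro a
    have hT : ∀ p ∈ Zon (n + 1) a, ∃ t : ℝ, 0 ≤ t ∧ t ≤ 1 ∧
        p - t • a (Fin.last n) ∈ Zon n (fun i => a i.castSucc) := by
      rintro p ⟨x, hx, rfl⟩
      refine ⟨x (Fin.last n), (hx _).1, (hx _).2, fun i => x i.castSucc, fun i => hx _, ?_⟩
      rw [Fin.sum_univ_castSucc]
      simp
    rw [Z_succ, ENNReal.ofReal_add (Z_nonneg _ _) (Finset.sum_nonneg fun i _ => abs_nonneg _)]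
    by_cases hv : a (Fin.last n) = 0
    · have hsub : Zon (n + 1) a ⊆ Zon n (fun i => a i.castSucc) := by
        intro p hp
        obtain ⟨t, -, -, h⟩ := hT p hp
        rw [hv] at h
        simpa using h
      exact ((measure_mono hsub).trans (ih _)).trans (le_add_of_nonneg_right zero_le)
    · exact (step _ _ hv _ hT).trans (add_le_add (ih _) le_rfl)

theorem t_ZON : S_ZON := by
  intro n a
  exact ENNReal.toReal_le_of_le_ofReal (Z_nonneg n a) (vol_Zon n a)

end Pool.Agent.E8helper68.TS
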